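import Mathlib.NumberTheory.LSeries.Injectivity
import Pool.Agent.Lib.MP_1a91b9_ntT.S4.MainB

/-!
# S7: the L-series of `E` in the half plane `3/2 < Re s`
-/

set_option autoImplicit false

namespace Pool.Agent.Lib.MP_1a91b9_ntT.S7

open NumberField IsDedekindDomain Filter Topology LSeries
open Pool.Agent.Lib.MP_1a91b9_ntT.S4 Pool.Agent.Lib.MP_1a91b9_nt

universe u

section coef
variable {F : Type*} [Field F] [NumberField F]

/-- The coefficients of the Dirichlet series `∑ f(I) N(I)^(-s)`. -/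
noncomputable def coefI (f : Ideal (𝓞 F) → ℂ) (n : ℕ) : ℂ :=
  ∑' I : (Ideal.absNorm (S := 𝓞 F)) ⁻¹' {n}, f I

/-- A sum over ideals as a Dirichlet series. -/
theorem hasSum_coefI (f : Ideal (𝓞 F) → ℂ) (s : ℂ) (hs : s ≠ 0)
    (h : Summable fun I : Ideal (𝓞 F) => ‖f I * (Ideal.absNorm I : ℂ) ^ (-s)‖) :
    LSeriesHasSum (coefI f) s (Lf f s) := by
  have h1 := h.of_norm.hasSum.tsum_fiberwise (Ideal.absNorm (S := 𝓞 F))
  have e : (fun n : ℕ => ∑' I : (Ideal.absNorm (S := 𝓞 F)) ⁻¹' {n},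
      f I * (Ideal.absNorm (I : Ideal (𝓞 F)) : ℂ) ^ (-s)) = LSeries.term (coefI f) s := by
    funext n
    have e1 : (∑' I : (Ideal.absNorm (S := 𝓞 F)) ⁻¹' {n},
        f I * (Ideal.absNorm (I : Ideal (𝓞 F)) : ℂ) ^ (-s)) = coefI f n * (n : ℂ) ^ (-s) := by
      rw [coefI, ← tsum_mul_right]
      refine tsum_congr fun I => ?_
      have : Ideal.absNorm (I : Ideal (𝓞 F)) = n := I.2
      rw [this]
    rw [e1, LSeries.term_def]
    split_ifs with h0
    · rw [h0, Nat.cast_zero, Complex.zero_cpow (neg_ne_zero.2 hs), mul_zero]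
    · rw [Complex.cpow_neg, div_eq_mul_inv]
  rw [e] at h1
  exact h1

/-- The Dirichlet series of a completely multiplicative function bounded by `N(I)^(1/2)`. -/
theorem hasSum_coefI_of_le (f : Ideal (𝓞 F) → ℂ) (h1 : f 1 = 1)
    (hmul : ∀ I J, f (I * J) = f I * f J)
    (hf : ∀ I, ‖f I‖ ≤ (Ideal.absNorm I : ℝ) ^ (1 / 2 : ℝ)) (s : ℂ) (hs : 3 / 2 < s.re) :
    LSeriesHasSum (coefI f) s (Lf f s) := by
  refine hasSum_coefI f s ?_ (hasProd_Lf f h1 hmul (1 / 2) (by norm_num) hf s (by linarith)).1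
  rintro rfl
  norm_num at hs

end coef

section half
variable {M : Type*} [Field M] [NumberField M]

/-- The Dirichlet series of a curve is determined by its values for `2 < Re s`. -/
theorem half_plane (W : WeierstrassCurve M) (a : ℕ → ℂ)
    (h1 : ∀ s : ℂ, 3 / 2 < s.re → LSeriesSummable a s)
    (h2 : ∀ s : ℂ, 2 < s.re → W.LSeries s = LSeries a s) :
    ∀ s : ℂ, 3 / 2 < s.re → LSeriesSummable ((↑) ∘ W.LFunction) s ∧ W.LSeries s = LSeries a s := by
  set b : ℕ → ℂ := (↑) ∘ W.LFunction with hb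
  have hb3 : LSeriesSummable b 3 := by
    have h3 := LSeries_ne_zero W (s := 3) (by norm_num)
    by_contra hn
    apply h3
    exact tsum_eq_zero_of_not_summable hn
  have ha3 : LSeriesSummable a 3 := h1 3 (by norm_num)
  have hA : abscissaOfAbsConv a < ⊤ := ha3.abscissaOfAbsConv_le.trans_lt (EReal.coe_lt_top _)
  have hB : abscissaOfAbsConv b < ⊤ := hb3.abscissaOfAbsConv_le.trans_lt (EReal.coe_lt_top _)
  have hev : (fun x : ℝ => LSeries b x) =ᶠ[atTop] fun x : ℝ => LSeries a x := by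
    filter_upwards [eventually_gt_atTop (2 : ℝ)] with x hx
    exact h2 x (by simpa using hx)
  have hab : ∀ {n : ℕ}, n ≠ 0 → a n = b n := fun {n} hn =>
    (LSeries.eq_of_LSeries_eventually_eq hB hA hev hn).symm
  intro s hs
  refine ⟨(LSeriesSummable_congr s hab).1 (h1 s hs), ?_⟩
  change LSeries b s = LSeries a s
  exact (LSeries_congr (fun {n} hn => hab hn) s).symm

/-- An entire function which agrees with the L-series for `2 < Re s` agrees with it for
`3/2 < Re s`. -/
theorem entire_half (W : WeierstrassCurve M)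
    (h1 : ∀ s : ℂ, 3 / 2 < s.re → LSeriesSummable ((↑) ∘ W.LFunction) s) {g : ℂ → ℂ}
    (hg : Differentiable ℂ g) (h2 : ∀ s : ℂ, 2 < s.re → g s = W.LSeries s) :
    ∀ s : ℂ, 3 / 2 < s.re → g s = W.LSeries s := by
  set b : ℕ → ℂ := (↑) ∘ W.LFunction with hb
  have hab : abscissaOfAbsConv b ≤ ((3 / 2 : ℝ) : EReal) := by
    refine LSeries.abscissaOfAbsConv_le_of_forall_lt_LSeriesSummable fun y hy => ?_
    exact h1 y (by simpa using hy)
  have hL : AnalyticOnNhd ℂ (LSeries b) {s : ℂ | 3 / 2 < s.re} := by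
    refine (LSeries_analyticOnNhd b).mono fun s hs => ?_
    exact hab.trans_lt (by exact_mod_cast hs)
  have hG : AnalyticOnNhd ℂ g {s : ℂ | 3 / 2 < s.re} := fun s _ => hg.analyticAt s
  have hc : IsPreconnected {s : ℂ | 3 / 2 < s.re} := (convex_halfSpace_re_gt _).isPreconnected
  have h3 : (3 : ℂ) ∈ {s : ℂ | 3 / 2 < s.re} := by norm_num
  have hev : g =ᶠ[𝓝 (3 : ℂ)] LSeries b := by
    have ho : IsOpen {s : ℂ | 2 < s.re} := isOpen_lt continuous_const Complex.continuous_re
    filter_upwards [ho.mem_nhds (show (3 : ℂ) ∈ {s : ℂ | 2 < s.re} by norm_num)] with s hs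
    exact h2 s hs
  exact fun s hs => hG.eqOn_of_preconnected_of_eventuallyEq hL hc h3 hev hs

end half

section main

/-- `L(E/F, s)` for `3/2 < Re s`, `F` containing `K`. -/
theorem summable_32 {F : Type*} [Field F] [NumberField F] [Algebra K F] (h : NoCube3 F) (s : ℂ)
    (hs : 3 / 2 < s.re) : LSeriesSummable ((↑) ∘ (E F).LFunction) s ∧
      (E F).LSeries s = Lf (psiC F) s * Lf (psibC F) s := by
  have hp := hasSum_coefI_of_le (psiC F) (psiC_one F) (psiC_mul F) (norm_psiC_le F)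
  have hq := hasSum_coefI_of_le (psibC F) (psibC_one F) (psibC_mul F) norm_psibC_le
  have h1 := half_plane (E F) (LSeries.convolution (coefI (psiC F)) (coefI (psibC F)))
    (fun s hs => ((hp s hs).convolution (hq s hs)).LSeriesSummable)
    (fun s hs => by
      have hs' : 3 / 2 < s.re := by linarith
      rw [LSeries_E h s hs, ((hp s hs').convolution (hq s hs')).LSeries_eq]) s hs
  refine ⟨h1.1, ?_⟩
  rw [h1.2, ((hp s hs).convolution (hq s hs)).LSeries_eq]

/-- `L(E/N, s)` for `3/2 < Re s`, `N` without primitive cube roots of unity. -/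
theorem summable_32B {N F : Type u} [Field N] [NumberField N] [Field F] [NumberField F]
    [Algebra N F] [Algebra K F] (hL : Module.finrank N F = 2)
    (hn : ∀ x : N, algebraMap N F x ≠ algebraMap K F om) (h3 : NoCube3 N) (s : ℂ)
    (hs : 3 / 2 < s.re) : LSeriesSummable ((↑) ∘ (E N).LFunction) s ∧
      (E N).LSeries s = Lf (psibC F) s := by
  have hq := hasSum_coefI_of_le (psibC F) (psibC_one F) (psibC_mul F) norm_psibC_le
  have h1 := half_plane (E N) (coefI (psibC F)) (fun s hs => (hq s hs).LSeriesSummable)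
    (fun s hs => by
      rw [LSeries_B hL hn h3 s hs, (hq s (by linarith)).LSeries_eq]) s hs
  exact ⟨h1.1, by rw [h1.2, (hq s hs).LSeries_eq]⟩

end main

end Pool.Agent.Lib.MP_1a91b9_ntT.S7
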