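import Pool.Agent.Lib.MP_1a91b9_ntT.S6.Main
import Pool.Agent.Lib.MP_1a91b9_ntT.S6.Bs2
import Pool.Agent.Lib.MP_1a91b9_ntT.S4.MainB

/-!
# S7: the values of the partial L-series, in the form used by S4
-/

set_option autoImplicit false

namespace Pool.Agent.Lib.MP_1a91b9_ntT.S7

open NumberField IsDedekindDomain Pool.Agent.Lib.MP_1a91b9_ntT.S4 Pool.Agent.Lib.MP_1a91b9_nt

universe u

variable {F : Type u} [Field F] [NumberField F] [Algebra K F]

/-- The set of the elements of `R`, in `F`. -/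
def coeSet (R : Set (𝓞 F)) : Set F := (fun z : 𝓞 F => (z : F)) '' R

theorem coe_inj {a b : 𝓞 F} (h : (a : F) = (b : F)) : a = b := RingOfIntegers.coe_injective h

theorem repsU_of_isRep {m b : Ideal (𝓞 F)} {t : 𝓞 F} (ht : t ∉ m * b) {R : Set (𝓞 F)}
    (h : IsRep m b t R) : IsRepsU m (cls b m t) (coeSet R) := by
  refine ⟨?_, ?_⟩
  · rintro _ ⟨r, hr, rfl⟩
    exact ⟨r, rfl, h.mem r hr⟩
  · rintro _ ⟨z, rfl, hz⟩
    have hz0 : z ≠ 0 := by
      rintro rfl
      apply ht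
      rw [zero_sub] at hz
      exact (neg_mem_iff).1 hz
    obtain ⟨u, hu, r, hr, e⟩ := h.ex z hz
    refine ⟨u⁻¹, ⟨?_, r, hr, ?_⟩, ?_⟩
    · have h1 : ((u⁻¹ : (𝓞 F)ˣ) : 𝓞 F) - 1 = -(((u⁻¹ : (𝓞 F)ˣ) : 𝓞 F) * ((u : 𝓞 F) - 1)) := by
        rw [mul_sub, Units.inv_mul]
        ring
      rw [h1]
      exact neg_mem (Ideal.mul_mem_left _ _ hu)
    · change (r : F) = _
      rw [e, ← map_mul (algebraMap (𝓞 F) F), ← mul_assoc, Units.inv_mul, one_mul]
    · rintro w ⟨hw, r', hr', e'⟩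
      have h1 : r' = (w : 𝓞 F) * z := by
        apply coe_inj
        change (r' : F) = algebraMap (𝓞 F) F ((w : 𝓞 F) * z)
        rw [map_mul]
        exact e'
      have h2 : r' = ((w * u : (𝓞 F)ˣ) : 𝓞 F) * r := by
        rw [h1, e, Units.val_mul, mul_assoc]
      have h3 : ((w * u : (𝓞 F)ˣ) : 𝓞 F) - 1 ∈ m := by
        have h4 : ((w * u : (𝓞 F)ˣ) : 𝓞 F) - 1 = ((w : 𝓞 F) - 1) * u + ((u : 𝓞 F) - 1) := by
          rw [Units.val_mul]
          ring
        rw [h4]
        exact add_mem (Ideal.mul_mem_right _ _ hw) hu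
      have h5 := h.uniq r hr r' hr' (w * u) h3 h2
      have h6 : r ≠ 0 := by
        rintro rfl
        apply hz0
        rw [e, mul_zero]
      have h7 : ((w * u : (𝓞 F)ˣ) : 𝓞 F) = 1 := by
        have h8 : (((w * u : (𝓞 F)ˣ) : 𝓞 F) - 1) * r = 0 := by
          rw [sub_mul, one_mul, ← h2, ← h5, sub_self]
        rcases mul_eq_zero.1 h8 with h9 | h9
        · exact sub_eq_zero.1 h9
        · exact absurd h9 h6
      have h10 : w * u = 1 := Units.ext h7
      exact eq_inv_of_mul_eq_one_left h10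

theorem hasSum_coe {R : Set (𝓞 F)} {s : ℂ} {a : ℂ}
    (h : HasSum (fun z : coeSet R => term s (z : F)) a) :
    HasSum (fun r : R => (starRingEnd ℂ) (Nm ((r : 𝓞 F) : F)) *
          ((‖Nm ((r : 𝓞 F) : F)‖ : ℝ) : ℂ) ^ (-2 * s)) a := by
  have hinj : Function.Injective (fun z : 𝓞 F => (z : F)) := RingOfIntegers.coe_injective
  have h1 := (Equiv.Set.image (fun z : 𝓞 F => (z : F)) R hinj).hasSum_iff.2 h
  exact h1

theorem valueProp (h : TowerK F) : ValueProp Om F := by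
  intro m b t hm0 hm3 hm2 hb0 hb2 hbm htb htm
  obtain ⟨g, hg, hgs, hgA⟩ := s6_main h b m hb0 hb2 hm0 hm2 hm3 t htb htm
  refine ⟨g, hg, fun R hR s hs => hasSum_coe (hgs _ (repsU_of_isRep htm hR) s hs), ?_⟩
  intro W hW
  rw [ValuationSubring.valuation_le_one_iff]
  exact hgA W hW

theorem finrank_bij (h : Function.Bijective (algebraMap K F)) : Module.finrank K F = 1 := by
  have := LinearEquiv.finrank_eq (LinearEquiv.ofBijective (Algebra.linearMap K F) h)
  rw [← this, Module.finrank_self]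

theorem val_three {W : ValuationSubring ℂ} (hW : (2 : ℂ)⁻¹ ∉ W) : W.valuation (3 : ℂ) = 1 := by
  have h2 : W.valuation (2 : ℂ) < 1 := by
    by_contra h
    push Not at h
    apply hW
    rw [← ValuationSubring.valuation_le_one_iff, map_inv₀]
    exact inv_le_one_of_one_le₀ h
  have e : (3 : ℂ) = 1 + 2 := by norm_num
  rw [e, W.valuation.map_one_add_of_lt h2]

theorem baseVal (h : Function.Bijective (algebraMap K F)) : BaseVal Om F := by
  have hm0 : Ideal.span {(3 : 𝓞 F)} ≠ ⊥ := by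
    rw [Ne, Ideal.span_singleton_eq_bot]
    norm_num
  have h1 : (1 : 𝓞 F) ∉ Ideal.span {(3 : 𝓞 F)} * ⊤ := by
    rw [Ideal.mul_top, Ideal.mem_span_singleton]
    intro hd
    exact three_not_unit (isUnit_of_dvd_one hd)
  have h1' : (1 : 𝓞 F) ∉ Ideal.span {(3 : 𝓞 F)} * 1 := by
    rw [Ideal.one_eq_top]
    exact h1
  have hm2 : IsCoprime (Ideal.span {(3 : 𝓞 F)}) (Ideal.span {(2 : 𝓞 F)}) := by
    rw [Ideal.isCoprime_span_singleton_iff]
    exact ⟨1, -1, by norm_num⟩
  obtain ⟨g, hg, hgs, -⟩ := s6_main (TowerK.base F h) ⊤ (Ideal.span {(3 : 𝓞 F)}) top_ne_bot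
    (by rw [← Ideal.one_eq_top]; exact isCoprime_one_left) hm0 hm2 le_rfl 1 trivial h1
  refine ⟨g, hg, fun R hR s hs => ?_, ?_⟩
  · have h2 := repsU_of_isRep h1' hR
    rw [Ideal.one_eq_top] at h2
    exact hasSum_coe (hgs _ h2 s hs)
  · intro W hW
    have h3 := bs_main F h g hg hgs
    rw [h3, finrank_bij h, pow_one]
    obtain ⟨h4, h5⟩ := s3_unit W hW
    have h6 : E1 (1 / 3) / Om ∈ W := by
      refine s3_mem W hW 3 (by decide) (1 / 3) ⟨(1, 0), ?_⟩
      simp [lp]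
    have h7 : W.valuation (E1 (1 / 3) / Om) = 1 := by
      apply le_antisymm
      · rwa [ValuationSubring.valuation_le_one_iff]
      · rw [← ValuationSubring.valuation_le_one_iff, map_inv₀] at h5
        exact (inv_le_one₀ (by
          rw [zero_lt_iff]
          exact (map_ne_zero _).2 (div_ne_zero h4 s3_Om))).1 h5
    have e : E1 (1 / 3) / 3 / Om = E1 (1 / 3) / Om / 3 := by ring
    rw [e, map_div₀, h7, val_three hW, div_one]

theorem unitProp (F : Type u) [Field F] [NumberField F] [Algebra K F] (h : TowerK F) :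
    UnitProp Om F :=
  tower_unit (fun _ _ _ _ h => valueProp h) (fun _ _ _ _ h => baseVal h) F h

end Pool.Agent.Lib.MP_1a91b9_ntT.S7
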