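import Pool.Agent.Lib.MP_1a91b9_ntT.S7.Adj
import Pool.Agent.Lib.MP_1a91b9_ntT.S7.HalfPlane

/-!
# S7: the L-series of `E` over the towers in the half plane `3/2 < Re s`
-/

set_option autoImplicit false

namespace Pool.Agent.Lib.MP_1a91b9_ntT.S7

open NumberField IsDedekindDomain Pool.Agent.Lib.MP_1a91b9_ntT.S4 Pool.Agent.Lib.MP_1a91b9_nt

universe u

/-- The Dirichlet series `L(E/N, s)` converges absolutely for `3/2 < Re s`. -/
theorem summable_noCube3 (N : Type u) [Field N] [NumberField N] (h : NoCube3 N) (s : ℂ)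
    (hs : 3 / 2 < s.re) : LSeriesSummable ((↑) ∘ (E N).LFunction) s := by
  by_cases hy : ∃ y : N, y ^ 2 = -3
  · obtain ⟨y, hy⟩ := hy
    obtain ⟨_, -⟩ := exists_algebraK N y hy
    exact (summable_32 h s hs).1
  · push Not at hy
    obtain ⟨F, _, _, _, _, y, hy2, hom, hfr, hgen⟩ := exists_up N hy
    refine (summable_32B (F := F) hfr ?_ h s hs).1
    intro x hx
    apply hy (2 * x + 1)
    apply (algebraMap N F).injective
    rw [map_pow, map_add, map_mul, map_one, map_ofNat, hx, map_neg, map_ofNat]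
    have h1 : algebraMap K F ((2 * om + 1) ^ 2) = algebraMap K F (-3) := by rw [om_sq]
    rw [map_pow, map_add, map_mul, map_one, map_ofNat, map_neg, map_ofNat] at h1
    exact h1

/-- An entire function which is `L(E/N, s)` for `2 < Re s` is `L(E/N, s)` for `3/2 < Re s`. -/
theorem half_noCube3 (N : Type u) [Field N] [NumberField N] (h : NoCube3 N) {g : ℂ → ℂ}
    (hg : Differentiable ℂ g) (h2 : ∀ s : ℂ, 2 < s.re → g s = (E N).LSeries s) :
    ∀ s : ℂ, 3 / 2 < s.re → g s = (E N).LSeries s :=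
  entire_half (E N) (fun s hs => summable_noCube3 N h s hs) hg h2

/-- The same for the towers above `ℚ`. -/
theorem half_tower (N : Type u) [Field N] [NumberField N] (h : Tower N) {g : ℂ → ℂ}
    (hg : Differentiable ℂ g) (h2 : ∀ s : ℂ, 2 < s.re → g s = (E N).LSeries s) :
    ∀ s : ℂ, 3 / 2 < s.re → g s = (E N).LSeries s :=
  half_noCube3 N (noCube3_towerQ N h) hg h2

/-- The same for the towers above `K`. -/
theorem half_towerK (F : Type u) [Field F] [NumberField F] [Algebra K F] (h : TowerK F)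
    {g : ℂ → ℂ} (hg : Differentiable ℂ g) (h2 : ∀ s : ℂ, 2 < s.re → g s = (E F).LSeries s) :
    ∀ s : ℂ, 3 / 2 < s.re → g s = (E F).LSeries s :=
  half_noCube3 F (noCube3_tower F h) hg h2

end Pool.Agent.Lib.MP_1a91b9_ntT.S7
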