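import Pool.Agent.Lib.MP_1a91b9_ntT.Base

/-!
# S7: adjoining `√-3`
-/

set_option autoImplicit false

namespace Pool.Agent.Lib.MP_1a91b9_ntT.S7

open NumberField IsDedekindDomain Polynomial

universe u

theorem om_sq : (2 * om + 1) ^ 2 = (-3 : K) := by
  have h := om_spec.isRoot_cyclotomic (by norm_num)
  rw [cyclotomic_three, IsRoot.def, eval_add, eval_add, eval_pow, eval_X, eval_one] at h
  linear_combination 4 * h

/-- `N` contains `√-3`: an `Algebra K N`. -/
theorem exists_algebraK (N : Type u) [Field N] [NumberField N] (y : N) (hy : y ^ 2 = -3) :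
    ∃ i : Algebra K N, @algebraMap K N _ _ i (2 * om + 1) = y := by
  have hprim : IsPrimitiveRoot ((-1 + y) / 2) 3 := by
    have h3 : ((-1 + y) / 2) ^ 2 + (-1 + y) / 2 + 1 = 0 := by
      linear_combination (1 / 4) * hy
    rw [← isRoot_cyclotomic_iff, cyclotomic_three, IsRoot.def, eval_add, eval_add, eval_pow,
      eval_X, eval_one]
    exact h3
  let φ : K →ₐ[ℚ] N := (om_spec.embeddingsEquivPrimitiveRoots N
    (Polynomial.cyclotomic.irreducible_rat (by norm_num))).symm
    ⟨_, (mem_primitiveRoots (by norm_num)).2 hprim⟩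
  have hφ : φ om = (-1 + y) / 2 := by
    have h := om_spec.embeddingsEquivPrimitiveRoots_apply_coe N
      (Polynomial.cyclotomic.irreducible_rat (by norm_num)) φ
    rw [← h]
    simp only [φ]
    rw [Equiv.apply_symm_apply]
  refine ⟨φ.toRingHom.toAlgebra, ?_⟩
  change φ (2 * om + 1) = y
  rw [map_add, map_mul, map_one, map_ofNat, hφ]
  ring

/-- For `N` without `√-3`: `F = N(√-3)`. -/
theorem exists_up (N : Type u) [Field N] [NumberField N] (h : ∀ y : N, y ^ 2 ≠ -3) :
    ∃ (F : Type u) (_ : Field F) (_ : NumberField F) (_ : Algebra N F) (_ : Algebra K F) (y : F),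
      y ^ 2 = -3 ∧ algebraMap K F (2 * om + 1) = y ∧ Module.finrank N F = 2 ∧
      ∀ z : F, ∃ a b : N, z = algebraMap N F a + algebraMap N F b * y := by
  set P : N[X] := X ^ 2 + C 3 with hP
  have hdeg : P.natDegree = 2 := by rw [hP]; compute_degree!
  have hmon : P.Monic := by rw [hP]; monicity!
  have hirr : Irreducible P := by
    rw [irreducible_iff_roots_eq_zero_of_degree_le_three (by omega) (by omega)]
    rw [Multiset.eq_zero_iff_forall_notMem]
    intro y hy
    have h1 := (mem_roots'.1 hy).2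
    rw [hP, IsRoot.def, eval_add, eval_pow, eval_X, eval_C] at h1
    exact h y (by linear_combination h1)
  have : Fact (Irreducible P) := ⟨hirr⟩
  let F := AdjoinRoot P
  have hP0 : P ≠ 0 := hmon.ne_zero
  have hfd : FiniteDimensional N F := (AdjoinRoot.powerBasis hP0).finite
  let : Algebra ℚ F := inferInstance
  have : CharZero F := charZero_of_injective_algebraMap (algebraMap N F).injective
  have : FiniteDimensional ℚ F := by
    have : IsScalarTower ℚ N F := inferInstance
    exact Module.Finite.trans N F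
  have : NumberField F := { to_charZero := inferInstance, to_finiteDimensional := inferInstance }
  have hy : (AdjoinRoot.root P) ^ 2 = -3 := by
    have h1 : eval₂ (AdjoinRoot.of P) (AdjoinRoot.root P) P = 0 := AdjoinRoot.eval₂_root P
    have h2 : eval₂ (AdjoinRoot.of P) (AdjoinRoot.root P) (X ^ 2 + C 3) = 0 := h1
    rw [eval₂_add, eval₂_pow, eval₂_X, eval₂_C, map_ofNat] at h2
    exact eq_neg_of_add_eq_zero_left h2
  obtain ⟨i, hi⟩ := exists_algebraK F (AdjoinRoot.root P) hy
  refine ⟨F, inferInstance, inferInstance, inferInstance, i, AdjoinRoot.root P, hy, hi, ?_, ?_⟩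
  · have h2 := (AdjoinRoot.powerBasis hP0).finrank
    rw [h2, AdjoinRoot.powerBasis_dim, hdeg]
  · intro z
    obtain ⟨g, rfl⟩ := AdjoinRoot.mk_surjective z
    have h3 : AdjoinRoot.mk P g = AdjoinRoot.mk P (g %ₘ P) := by
      rw [AdjoinRoot.mk_eq_mk]
      exact ⟨g /ₘ P, by rw [← sub_eq_iff_eq_add.2 (modByMonic_add_div g P).symm]; ring⟩
    have h4 : (g %ₘ P).natDegree < 2 := by
      rw [← hdeg]
      exact natDegree_modByMonic_lt g hmon (by
        intro h5
        rw [h5, natDegree_one] at hdeg
        exact absurd hdeg (by norm_num))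
    obtain ⟨a, b, hab⟩ : ∃ a b : N, g %ₘ P = C a * X + C b := by
      exact exists_eq_X_add_C_of_natDegree_le_one (by omega)
    refine ⟨b, a, ?_⟩
    rw [h3, hab, map_add, map_mul, AdjoinRoot.mk_C, AdjoinRoot.mk_X, AdjoinRoot.mk_C, add_comm]
    rfl

end Pool.Agent.Lib.MP_1a91b9_ntT.S7
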