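import Pool.Agent.Lib.MP_1a91b9_ntT.S7.Plug
import Pool.Agent.Lib.MP_1a91b9_ntT.S7.Adj
import Pool.Agent.Lib.MP_1a91b9_ntT.S5.Tower

/-!
# The main theorems: towers above `K = ℚ(√-3)` and towers above `ℚ`
-/

set_option autoImplicit false

namespace Pool.Agent.Lib.MP_1a91b9_ntT.S7

open NumberField IsDedekindDomain Pool.Agent.Lib.MP_1a91b9_ntT.S4 Pool.Agent.Lib.MP_1a91b9_nt

universe u

/-- THEOREM A: towers above `K`. -/
theorem thmA (F : Type u) [Field F] [NumberField F] [Algebra K F] (h : TowerK F) :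
    (∃ g : ℂ → ℂ, Differentiable ℂ g ∧ (∀ s : ℂ, 2 < s.re → g s = (E F).LSeries s) ∧ g 1 ≠ 0) ∧
      Finite (E F).toAffine.Point :=
  ⟨main_A (noCube3_tower F h) (unitProp F h) s3_exists, S5.finite_points F h⟩

/-- THEOREM B: towers above `ℚ`. -/
theorem thmB (N : Type u) [Field N] [NumberField N] (h : Tower N) :
    (∃ g : ℂ → ℂ, Differentiable ℂ g ∧ (∀ s : ℂ, 2 < s.re → g s = (E N).LSeries s) ∧ g 1 ≠ 0) ∧
      Finite (E N).toAffine.Point := by
  by_cases hy : ∃ y : N, y ^ 2 = -3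
  · obtain ⟨y, hy⟩ := hy
    obtain ⟨_, -⟩ := exists_algebraK N y hy
    refine thmA N (S5.tower_towerK N N y hy (fun z => ⟨z, 0, ?_⟩) h)
    simp
  · push Not at hy
    refine ⟨?_, S5.finite_points_tower N h⟩
    obtain ⟨F, _, _, _, _, y, hy2, hom, hfr, hgen⟩ := exists_up N hy
    refine main_B hfr ?_ (noCube3_towerQ N h) (unitProp F (S5.tower_towerK N F y hy2 hgen h))
      s3_exists
    intro x hx
    apply hy (2 * x + 1)
    apply (algebraMap N F).injective
    rw [map_pow, map_add, map_mul, map_one, map_ofNat, hx, map_neg, map_ofNat]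
    have h1 : algebraMap K F ((2 * om + 1) ^ 2) = algebraMap K F (-3) := by rw [om_sq]
    rw [map_pow, map_add, map_mul, map_one, map_ofNat, map_neg, map_ofNat] at h1
    exact h1

end Pool.Agent.Lib.MP_1a91b9_ntT.S7
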