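import Pool.Agent.Lib.MP_1a91b9_ntT.S7.HalfPlane
import Pool.Agent.Lib.MP_1a91b9_ntT.S4.TwistL

/-!
# S7: the L-series of the quadratic twists of `E` in the half plane `3/2 < Re s`
-/

set_option autoImplicit false

namespace Pool.Agent.Lib.MP_1a91b9_ntT.S7

open NumberField IsDedekindDomain Filter Topology LSeries
open Pool.Agent.Lib.MP_1a91b9_ntT.S4 Pool.Agent.Lib.MP_1a91b9_nt

universe u

section gen
variable {M : Type*} [Field M] [NumberField M]

/-- A function analytic for `1/2 < Re s` which agrees with the L-series for `2 < Re s` agrees with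
it for `3/2 < Re s`. -/
theorem analytic_half (W : WeierstrassCurve M)
    (h1 : ∀ s : ℂ, 3 / 2 < s.re → LSeriesSummable ((↑) ∘ W.LFunction) s) {g : ℂ → ℂ}
    (hg : DifferentiableOn ℂ g {s : ℂ | 1 / 2 < s.re})
    (h2 : ∀ s : ℂ, 2 < s.re → g s = W.LSeries s) :
    ∀ s : ℂ, 3 / 2 < s.re → g s = W.LSeries s := by
  set b : ℕ → ℂ := (↑) ∘ W.LFunction with hb
  have hab : abscissaOfAbsConv b ≤ ((3 / 2 : ℝ) : EReal) := by
    refine LSeries.abscissaOfAbsConv_le_of_forall_lt_LSeriesSummable fun y hy => ?_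
    exact h1 y (by simpa using hy)
  have hL : AnalyticOnNhd ℂ (LSeries b) {s : ℂ | 3 / 2 < s.re} := by
    refine (LSeries_analyticOnNhd b).mono fun s hs => ?_
    exact hab.trans_lt (by exact_mod_cast hs)
  have hopen : IsOpen {s : ℂ | 1 / 2 < s.re} := isOpen_lt continuous_const Complex.continuous_re
  have hG : AnalyticOnNhd ℂ g {s : ℂ | 3 / 2 < s.re} := by
    refine (hg.analyticOnNhd hopen).mono fun s hs => ?_
    have hs' : 3 / 2 < s.re := hs
    change 1 / 2 < s.re
    linarith
  have hc : IsPreconnected {s : ℂ | 3 / 2 < s.re} := (convex_halfSpace_re_gt _).isPreconnected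
  have h3 : (3 : ℂ) ∈ {s : ℂ | 3 / 2 < s.re} := by norm_num
  have hev : g =ᶠ[𝓝 (3 : ℂ)] LSeries b := by
    have ho : IsOpen {s : ℂ | 2 < s.re} := isOpen_lt continuous_const Complex.continuous_re
    filter_upwards [ho.mem_nhds (show (3 : ℂ) ∈ {s : ℂ | 2 < s.re} by norm_num)] with s hs
    exact h2 s hs
  exact fun s hs => hG.eqOn_of_preconnected_of_eventuallyEq hL hc h3 hev hs

end gen

section A
variable {F F' : Type u} [Field F] [NumberField F] [Field F'] [NumberField F'] [Algebra F F']
  [Algebra K F]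

/-- The L-series of a twist over a field which contains `K`, for `3/2 < Re s`. -/
theorem half_twist_A (W : WeierstrassCurve F) (hT : TwistLoc F' W) (s : ℂ) (hs : 3 / 2 < s.re) :
    LSeriesSummable ((↑) ∘ W.LFunction) s ∧
      W.LSeries s = Lf (psiChi (F := F) F') s * Lf (psibChi (F := F) F') s := by
  have hp := hasSum_coefI_of_le (psiChi (F := F) F') psiChi_one psiChi_mul norm_psiChi_le
  have hq := hasSum_coefI_of_le (psibChi (F := F) F') psibChi_one psibChi_mul norm_psibChi_le
  have h1 := half_plane W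
    (LSeries.convolution (coefI (psiChi (F := F) F')) (coefI (psibChi (F := F) F')))
    (fun s hs => ((hp s hs).convolution (hq s hs)).LSeriesSummable)
    (fun s hs => by
      have hs' : 3 / 2 < s.re := by linarith
      rw [LSeries_twist_A W hT s hs, ((hp s hs').convolution (hq s hs')).LSeries_eq]) s hs
  refine ⟨h1.1, ?_⟩
  rw [h1.2, ((hp s hs).convolution (hq s hs)).LSeries_eq]

/-- The analytic statement for the twist over a field which contains `K`, for `3/2 < Re s`. -/
theorem main_twist_A32 {Ω : ℂ} (W : WeierstrassCurve F) (hT : TwistLoc F' W)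
    (hU : TwistProp Ω F F') (hW : ∃ V : ValuationSubring ℂ, (2 : ℂ)⁻¹ ∉ V) :
    ∃ g : ℂ → ℂ, DifferentiableOn ℂ g {s : ℂ | 1 / 2 < s.re} ∧
      (∀ s : ℂ, 3 / 2 < s.re → g s = W.LSeries s) ∧ g 1 ≠ 0 := by
  obtain ⟨g, hg, h2, h3⟩ := main_twist_A W hT hU hW
  exact ⟨g, hg, analytic_half W (fun s hs => (half_twist_A W hT s hs).1) hg h2, h3⟩

end A

section B
variable {N M F F' : Type u} [Field N] [NumberField N] [Field M] [NumberField M] [Field F]
  [NumberField F] [Field F'] [NumberField F'] [Algebra N F] [Algebra F F'] [Algebra N F']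
  [IsScalarTower N F F'] [Algebra N M] [Algebra M F'] [IsScalarTower N M F'] [Algebra K F]

/-- The L-series of a twist over a field without `√-3`, for `3/2 < Re s`. -/
theorem half_twist_B (hF : Module.finrank N F = 2) (hM : Module.finrank N M = 2)
    (hFF : Module.finrank F F' = 2) (hMF : Module.finrank M F' = 2)
    (hn : ∀ x : N, algebraMap N F x ≠ algebraMap K F om)
    (hnM : ∀ x : M, algebraMap M F' x ≠ algebraMap F F' (algebraMap K F om))
    (h : NoCube3 N) (W : WeierstrassCurve N) (hT : TwistLoc M W) (s : ℂ) (hs : 3 / 2 < s.re) :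
    LSeriesSummable ((↑) ∘ W.LFunction) s ∧ W.LSeries s = Lf (psibChi (F := F) F') s := by
  have hq := hasSum_coefI_of_le (psibChi (F := F) F') psibChi_one psibChi_mul norm_psibChi_le
  have h1 := half_plane W (coefI (psibChi (F := F) F')) (fun s hs => (hq s hs).LSeriesSummable)
    (fun s hs => by
      rw [LSeries_twist_B hF hM hFF hMF hn hnM h W hT s hs, (hq s (by linarith)).LSeries_eq]) s hs
  exact ⟨h1.1, by rw [h1.2, (hq s hs).LSeries_eq]⟩

/-- The analytic statement for the twist over a field without `√-3`, for `3/2 < Re s`. -/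
theorem main_twist_B32 (hF : Module.finrank N F = 2) (hM : Module.finrank N M = 2)
    (hFF : Module.finrank F F' = 2) (hMF : Module.finrank M F' = 2)
    (hn : ∀ x : N, algebraMap N F x ≠ algebraMap K F om)
    (hnM : ∀ x : M, algebraMap M F' x ≠ algebraMap F F' (algebraMap K F om))
    (h : NoCube3 N) (W : WeierstrassCurve N) (hT : TwistLoc M W) {Ω : ℂ}
    (hU : TwistProp Ω F F') (hW : ∃ V : ValuationSubring ℂ, (2 : ℂ)⁻¹ ∉ V) :
    ∃ g : ℂ → ℂ, DifferentiableOn ℂ g {s : ℂ | 1 / 2 < s.re} ∧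
      (∀ s : ℂ, 3 / 2 < s.re → g s = W.LSeries s) ∧ g 1 ≠ 0 := by
  obtain ⟨g, hg, h2, h3⟩ := main_twist_B hF hM hFF hMF hn hnM h W hT hU hW
  exact ⟨g, hg, analytic_half W
    (fun s hs => (half_twist_B hF hM hFF hMF hn hnM h W hT s hs).1) hg h2, h3⟩

end B

end Pool.Agent.Lib.MP_1a91b9_ntT.S7
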